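import Pool.Agent.H630AD.Red

/-!
# Approximate graph colouring is hard for circuits with few NOT gates

Let `K ≥ 3`.  It is NP-hard to distinguish the `K`-colourable graphs from the graphs without colouring
with `2K-2` colours (Khanna, Linial, Safra 1993 for `K = 3`; Brakensiek, Guruswami 2016).  Here: every
family of circuits that tells the two kinds of graphs on `N` vertices apart with advantage `ξ` (nothing
is required on other graphs) contains a circuit of size larger than `2 ^ (N ^ c)`, even if the gates
are arbitrary nondecreasing functions of two real numbers and further, arbitrary gates are allowed,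
the product of the numbers `w + 1` (`w` the number of wires of the further gate) being at most
`N ^ a`; for NOT gates this means `a * log2 N` of them.  Here `a < 1` is arbitrary, `c` is any positive
number smaller than `(1 - a) / 52`, and `N` has to be larger than a number that depends only on `K`,
`a`, `c` and `ξ`.

Proof.  A proper colouring of the square of the complete graph on `K` vertices with at most `2K-2`
colours has exactly one type: each row contains a colour twice, or each column does (`A1`, helper53).
For proper colourings of the cube the number of coordinates `i` such that the diagonal minor has the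
type of `i` is odd (`A2` helper329, `A3` helper272, `A4` helper616).  Hence the types of the binary
minors of a proper colouring of the eighth power form a parity function (`A5` helper35), and an
equation with four variables over the field with two elements is expressed by a table of `K ^ 8`
vertices.  The rest is the method of `MP_79d702_lc.ConstraintLanguages`.
-/

open scoped Classical
open Finset

namespace Pool.Agent.Results.MP_069684_lc.ApproximateColouring

open H630VC H630XR H630CD

/-- the family `f r`, `r ∈ R`, of functions distinguishes the `K`-colourable graphs on `N` vertices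
(value less than one) from the graphs without colouring with `2K-2` colours (value at least one) with
advantage `ξ`: at least a fraction `1/2 + ξ` of the values is right -/
def Distinguishes {R : Type} [Fintype R] (K N : ℕ) (ξ : ℝ)
    (f : R → SimpleGraph (Fin N) → ℝ) : Prop :=
  ∀ H : SimpleGraph (Fin N), (H.Colorable K →
      (1 / 2 + ξ) * Fintype.card R ≤ (univ.filter fun r => f r H < 1).card) ∧
    (¬ H.Colorable (2 * K - 2) →
      (1 / 2 + ξ) * Fintype.card R ≤ (univ.filter fun r => 1 ≤ f r H).card)

theorem result (K : ℕ) (hK : 3 ≤ K) (a c ξ : ℝ) (ha0 : 0 ≤ a) (ha : a < 1) (hc0 : 0 < c)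
    (hc : c < (1 - a) / 52) (hξ : 0 < ξ) :
    ∃ N₀ : ℕ, ∀ N : ℕ, N₀ ≤ N → ∀ (R : Type) [Fintype R] [Nonempty R]
      (f : R → SimpleGraph (Fin N) → ℝ) (l : R → List (SimpleGraph (Fin N) → ℝ))
      (q : R → List (List ((SimpleGraph (Fin N) → ℝ) × ℝ))),
      (∀ r, FProg (adjInputs N) (l r) (q r)) → (∀ r, f r ∈ l r) → Distinguishes K N ξ f →
      (∀ r, (combos (q r) : ℝ) ≤ (N : ℝ) ^ a) →
      ∃ r, (2 : ℝ) ^ ((N : ℝ) ^ c) < (l r).length + wires (q r) := by
  obtain ⟨N₀, hN₀⟩ := H630AC.plower_gen _ (one_le_M (Fintype.card (Fin K))) a c ξ ha0 ha hc0 hc hξ
  refine ⟨N₀, fun N hN R _ _ f l q hp hf hd hcomb => ?_⟩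
  exact hN₀ N hN _ (adjInputs N) (fun H => ¬ H.Colorable (2 * K - 2)) (fun H => H.Colorable K)
    (fun k b hb hkb => H630AC.pred_col hK N hb hkb) R f l q hp hf (fun H => hd H) hcomb

end Pool.Agent.Results.MP_069684_lc.ApproximateColouring
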