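import Pool.Agent.H554R2.Cnf.Final

/-!
# Nondeterminism against determinism and complement, for branching programs in time `(1 + ε) n`

Polynomial-size branching programs compute the functions in non-uniform logarithmic space, and
polynomial-size nondeterministic ones those in non-uniform nondeterministic logarithmic space; the
latter are closed under complement (Immerman, Szelepcsényi).  We show that this is very far from
true if the length of the computations is bounded by `(1 + ε) n`: there are CNF formulas `F` with
`O(n)` clauses of constant width such that nondeterministic programs accept the complement of `F`
with `O(n)` nodes, reading a constant number of bits, and deterministic programs of linear size and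
linear length accept `F`, but every nondeterministic program which accepts only satisfying
assignments of `F`, and a `2 ^ (- ε n)` fraction of them by some computation in which at most `ε n`
bits are queried more than once, or at most `(1 + ε) n` queries are made, has `2 ^ (ε n)` nodes.
-/

set_option autoImplicit false

namespace Pool.Agent.Results.MP_069684_lc.CnfComplement

open Pool.Agent.H554R2.Sem Pool.Agent.H554R2.Cnf

/-- There is a constant `D` such that for every `n` there is a CNF formula `F` in `n` variables,
with at most `D n` clauses of at most `D` literals, for which

* some nondeterministic program with at most `D n + 1` nodes accepts exactly the points which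
  violate `F`, with at most `D` queries in every accepting computation,
* some deterministic program with at most `D n + 1` nodes accepts exactly the points which satisfy
  `F`, with at most `D n` queries,
* every nondeterministic program which accepts only points which satisfy `F`, and at least a
  `2 ^ (- ⌊n / D⌋)` fraction of these points by some computation in which at most `⌊n / D⌋`
  variables are queried more than once, or at most `n + ⌊n / D⌋` queries are made, has at least
  `2 ^ ⌊n / D⌋` nodes. -/
theorem result : ∃ D : ℕ, 0 < D ∧ ∀ n : ℕ, ∃ F : Finset (Finset (Fin n × Bool)),
    F.card ≤ D * n ∧ (∀ c ∈ F, c.card ≤ D) ∧
    (∃ P : NBP (Fin n), Fintype.card P.State ≤ D * n + 1 ∧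
      (∀ x, (∃ l, P.Accepting x l) ↔ ¬ Models F x) ∧
      ∀ x l, P.Accepting x l → (l.filterMap P.query).length ≤ D) ∧
    (∃ P : NBP (Fin n), Deterministic P ∧ Fintype.card P.State ≤ D * n + 1 ∧
      (∀ x, (∃ l, P.Accepting x l) ↔ Models F x) ∧
      ∀ x l, P.Accepting x l → (l.filterMap P.query).length ≤ D * n) ∧
    ∀ P : NBP (Fin n), (∀ x l, P.Accepting x l → Models F x) →
      Nat.card {x // Models F x} ≤
        2 ^ (n / D) * Nat.card {x // ∃ l, P.Accepting x l ∧ Fast (n / D) P l} →
      2 ^ (n / D) ≤ Fintype.card P.State :=
  final

end Pool.Agent.Results.MP_069684_lc.CnfComplement
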