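import Pool.Agent.H752.GP.Adv

/-!
# How many oracles make nonuniform polynomial time equal to nonuniform `NP`?

For every gauge `f` the following are equivalent: for every `ε > 0` there are infinitely many `N`
with `f N ≤ 2 ^ ((log N) ^ ε)`; the oracles `A` with `P^A/poly = NP^A/poly` are a null set for `f`;
the oracles `A` with `P^A/poly = NP^A/poly` and `P^A ≠ NP^A` are a null set for `f`. The same holds
for every set of oracles that contains the `A` with `EXP^A ⊆ ZPP^A` and `P^A ≠ ZPP^A`, and that has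
only elements `A` with `NP^A ⊆ coNP^A/poly`.
-/

namespace Pool.Agent.Results.MP_069684_lc.GaugeThreshold

open Pool.Agent.NPC Pool.Agent.H620R2.Gauge

theorem result (f : ℕ → ℝ) :
    (∀ O : Set Oracle,
      (∀ A : Oracle, (∀ L, IsEXP A L → IsZPP A L) → (∃ L, IsZPP A L ∧ ¬ IsP A L) → A ∈ O) →
      (∀ A ∈ O, ∀ L, IsNP A L → WithAdvice (IsNP A) Lᶜ) →
      (Null f O ↔
        ∀ ε : ℝ, 0 < ε → ∃ᶠ N : ℕ in Filter.atTop, f N ≤ 2 ^ (Real.logb 2 N) ^ ε)) ∧
    (Null f {A : Oracle | ∀ L, WithAdvice (IsP A) L ↔ WithAdvice (IsNP A) L} ↔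
      ∀ ε : ℝ, 0 < ε → ∃ᶠ N : ℕ in Filter.atTop, f N ≤ 2 ^ (Real.logb 2 N) ^ ε) ∧
    (Null f {A : Oracle | (∀ L, WithAdvice (IsP A) L ↔ WithAdvice (IsNP A) L) ∧
        ∃ L, IsNP A L ∧ ¬ IsP A L} ↔
      ∀ ε : ℝ, 0 < ε → ∃ᶠ N : ℕ in Filter.atTop, f N ≤ 2 ^ (Real.logb 2 N) ^ ε) := by
  refine ⟨fun O h1 h2 => keyX f O (fun A hA hA' => h1 A (fun L hL => hA L (Or.inl hL)) hA')
    fun A hA => Or.inl (h2 A hA), keyX f _ ?_ ?_, keyX f _ ?_ ?_⟩
  · intro A hA hA'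
    exact (Pool.Agent.H752.GP.lower hA hA').1
  · intro A hA
    exact Or.inl (Pool.Agent.H752.GP.upper hA)
  · intro A hA hA'
    exact Pool.Agent.H752.GP.lower hA hA'
  · intro A hA
    exact Or.inl (Pool.Agent.H752.GP.upper hA.1)

end Pool.Agent.Results.MP_069684_lc.GaugeThreshold
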