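import Pool.Agent.H522R3.ND.Bounds
import Pool.Agent.H522R3.ND.FrameTrade
import Pool.Agent.H522R3.ND.Unsol

set_option autoImplicit false

/-!
# Nondeterminism in negation-symmetric networks

Solvability of systems of linear equations modulo 2 (an equation is a tuple of literals, an odd number of which
has to be true) and its complement, and satisfiability, have nondeterministic networks of polynomial size
symmetric under all negations of variables; deterministic networks, or networks with any other use of their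
guess inputs, need exponential size as long as the symmetries move few guess inputs.  Satisfiability networks
can be symmetrised by auxiliary inputs which hold a frame.
-/

namespace Pool.Agent.Results.MP_069684_lc.SymmetricSeparation

open Pool.Agent.H30R2.NS (Clause Satisfies Sat neg)
open Pool.Agent.H30R2.PS (Net)
open H522R3.ND

lemma ext0_refl {X : Type} (a : X → ZMod 2) : ext0 (Function.Embedding.refl X) a = a := by
  funext x
  exact ext0_apply (Function.Embedding.refl X) a x

lemma not_fooled {k M : ℕ} {X Y K Gt : Type} [Fintype Gt] (P : Set (Clause k X) → Prop)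
    (h1 : ∀ Φ, OddSat Φ → P Φ) (h2 : ∀ Φ, P Φ → Sat Φ) (one zero : K)
    (N : Net (Clause k X ⊕ Y) K Gt) (Acc : ((Y → K) → K) → Prop)
    (hdec : ∀ Φ : Set (Clause k X), Φ.Finite → Φ.ncard ≤ M →
      (Acc (fun y => N.eval (data one zero Φ y)) ↔ P Φ)) :
    ¬ Fooled (Function.Embedding.refl X) M one zero N := by
  rintro ⟨Φ0, Φ1, e0, e1, _, ho, hu, hy⟩
  have e : (fun y => N.eval (data one zero Φ0 y)) = fun y => N.eval (data one zero Φ1 y) := funext hy
  have h := (hdec Φ0 e0.1 e0.2).mpr (h1 _ ho)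
  rw [e] at h
  exact hu (h2 _ ((hdec Φ1 e1.1 e1.2).mp h))

lemma mapc_id {k : ℕ} {X : Type} (c : Clause k X) : mapc (id : X → X) c = c := rfl

theorem result :
    -- lower bound, `k = 3`, for every property between solvability and satisfiability
    (∀ (r g : ℕ) (X Y K Gt : Type) [Fintype Gt] (D : AddSubgroup (X → ZMod 2)),
      Nat.card D = 2 ^ r → ∀ σ : D → Equiv.Perm Y, (∀ a b, σ (a + b) = σ a * σ b) →
      {y | ∃ a, σ a y ≠ y}.encard ≤ g → ∀ (one zero : K) (N : Net (Clause 3 X ⊕ Y) K Gt),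
      (∀ a : D, SymAt N a.1 (σ a)) → ∀ Acc : ((Y → K) → K) → Prop,
      ∀ P : Set (Clause 3 X) → Prop, (∀ Φ, OddSat Φ → P Φ) → (∀ Φ, P Φ → Sat Φ) →
      (∀ Φ : Set (Clause 3 X), Φ.Finite → Φ.ncard ≤ 4 * (r + 1) →
        (Acc (fun y => N.eval (data one zero Φ y)) ↔ P Φ)) →
      2 ^ ((r - g / 2) / 2000) ≤ Fintype.card Gt) ∧
    -- lower bound for general `k`
    (∃ C : ℝ, ∀ (k r g : ℕ), 3 ≤ k → k ≤ r - g / 2 →
      ∀ (X Y K Gt : Type) [Fintype Gt] (D : AddSubgroup (X → ZMod 2)),
      Nat.card D = 2 ^ r → ∀ σ : D → Equiv.Perm Y, (∀ a b, σ (a + b) = σ a * σ b) →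
      {y | ∃ a, σ a y ≠ y}.encard ≤ g → ∀ (one zero : K) (N : Net (Clause k X ⊕ Y) K Gt),
      (∀ a : D, SymAt N a.1 (σ a)) → ∀ Acc : ((Y → K) → K) → Prop,
      ∀ P : Set (Clause k X) → Prop, (∀ Φ, OddSat Φ → P Φ) → (∀ Φ, P Φ → Sat Φ) →
      (∀ Φ : Set (Clause k X), Φ.Finite → Φ.ncard ≤ 2 ^ (k - 1) * (r + 1) →
        (Acc (fun y => N.eval (data one zero Φ y)) ↔ P Φ)) →
      (2 : ℝ) ^ ((1 - C * (Real.log k ^ 2 / k)) * ((r - g / 2 : ℕ) : ℝ)) ≤ Fintype.card Gt) ∧
    -- small symmetric nondeterministic networks for solvability, unsolvability and satisfiability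
    (∀ (k : ℕ) (X : Type) [Fintype X] [DecidableEq X],
      (∃ (Gt : Type) (_ : Fintype Gt) (N : Net (Clause k X ⊕ (X × ZMod 2)) Bool Gt),
        (∀ a, SymAt N a (lit a)) ∧ (∀ Φ, (∃ y, N.eval (data true false Φ y) = true) ↔ OddSat Φ) ∧
        Fintype.card Gt = 2 * (2 * Fintype.card X) ^ k + 3 * Fintype.card X + 1) ∧
      (∃ (Gt : Type) (_ : Fintype Gt) (N : Net (Clause k X ⊕ (Clause k X ⊕ (X × ZMod 2))) Bool Gt),
        (∀ a, SymAt N a (Equiv.sumCongr (neg a) (lit a))) ∧
        (∀ Φ, (∃ y, N.eval (data true false Φ y) = true) ↔ ¬ OddSat Φ) ∧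
        Fintype.card Gt = 4 * (2 * Fintype.card X) ^ k + 4 * Fintype.card X + 2) ∧
      (∃ (Gt : Type) (_ : Fintype Gt) (N : Net (Clause k X ⊕ (X × ZMod 2)) Bool Gt),
        (∀ a, SymAt N a (lit a)) ∧ (∀ Φ, (∃ y, N.eval (data true false Φ y) = true) ↔ Sat Φ) ∧
        Fintype.card Gt = 2 * (2 * Fintype.card X) ^ k + 3 * Fintype.card X + 1)) ∧
    -- symmetrisation of satisfiability networks by a frame for the variables `W`
    (∀ (k M : ℕ) (W U Y Gt : Type) [Fintype W] [DecidableEq W] [Fintype U] [DecidableEq U] [Fintype Gt]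
      (N : Net (Clause k (W ⊕ U) ⊕ Y) Bool Gt),
      (∀ Φ : Set (Clause k (W ⊕ U)), Φ.Finite → Φ.ncard ≤ M →
        ∀ y, (N.eval (data true false Φ y) = true ↔ Sat Φ)) →
      ∃ (Gt' : Type) (_ : Fintype Gt') (N' : Net (Clause k (W ⊕ U) ⊕ (Y ⊕ (W × ZMod 2))) Bool Gt'),
        (∀ a, SymAt N' a (Equiv.sumCongr 1 (lit fun w => a (Sum.inl w)))) ∧
        (∀ Φ : Set (Clause k (W ⊕ U)), Φ.Finite → Φ.ncard ≤ M → ∀ y t,
          (N'.eval (data true false Φ (Sum.elim y (oneHot t))) = true ↔ Sat Φ)) ∧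
        OnlyNew N N' ∧
        Nat.card Gt' = 2 ^ Fintype.card U * (Fintype.card Gt +
          (2 ^ k + 1) * (2 * (Fintype.card W + Fintype.card U)) ^ k +
          4 * (Fintype.card W + Fintype.card U) + 1) + 1) := by
  classical
  refine ⟨?_, ?_, ?_, ?_⟩
  · intro r g X Y K Gt _ D hD σ hσ hg one zero N hN Acc P h1 h2 hdec
    by_contra hlt
    push Not at hlt
    refine not_fooled P h1 h2 one zero N Acc hdec
      (three_bound _ D hD σ hσ hg one zero N (fun a => ?_) hlt)
    rw [ext0_refl]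
    exact hN a
  · obtain ⟨C, _, hC⟩ := seth_bound
    refine ⟨C, ?_⟩
    intro k r g hk hkr X Y K Gt _ D hD σ hσ hg one zero N hN Acc P h1 h2 hdec
    by_contra hlt
    push Not at hlt
    refine not_fooled P h1 h2 one zero N Acc hdec (hC k r g hk hkr X X Y K Gt
      (Function.Embedding.refl X) D hD σ hσ hg one zero N (fun a => ?_) hlt)
    rw [ext0_refl]
    exact hN a
  · intro k X _ _
    refine ⟨⟨_, inferInstance, ver id (fun t => decide (Odd t)), fun a => ⟨_, ver_aut id _ a⟩,
        fun Φ => ?_, card_VGate⟩,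
      ⟨_, inferInstance, uns k X, fun a => ⟨_, uns_aut a⟩, uns_exists, card_UGate⟩,
      ⟨_, inferInstance, ver id (fun t => decide (0 < t)), fun a => ⟨_, ver_aut id _ a⟩,
        fun Φ => ?_, card_VGate⟩⟩
    · rw [ver_exists]
      refine exists_congr fun x => forall_congr' fun c => imp_congr_right fun _ => ?_
      rw [decide_eq_true_iff]
      exact Iff.rfl
    · rw [ver_exists]
      refine exists_congr fun x => forall_congr' fun c => imp_congr_right fun _ => ?_
      rw [decide_eq_true_iff, Finset.card_pos]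
      constructor
      · rintro ⟨l, hl⟩
        rw [Finset.mem_filter] at hl
        exact ⟨l, hl.2⟩
      · rintro ⟨l, hl⟩
        exact ⟨l, Finset.mem_filter.mpr ⟨Finset.mem_univ _, hl⟩⟩
  · intro k M W U Y Gt _ _ _ _ _ N hN
    refine ⟨_, inferInstance, frameTrade N, frameTrade_sym N, fun Φ h1 h2 y t => ?_,
      frameTrade_new N, frameTrade_card⟩
    rw [frameTrade_valid]
    have key : ∀ s, N.eval (data true false (seen s Φ) y) = true ↔ Sat Φ := by
      intro s
      have h3 := seen_small (M := M) s Φ ⟨h1, h2⟩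
      rw [hN _ h3.1 h3.2 y, sat_seen]
    constructor
    · rintro ⟨p, hp⟩
      exact (key _).mp hp
    · intro h
      exact ⟨0, (key _).mpr h⟩

end Pool.Agent.Results.MP_069684_lc.SymmetricSeparation
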